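import Mathlib
import Pool.Agent.Q7.CV.Art
import Pool.Agent.Q7.RA.Fld

/-!
# Central values of Artin L-functions of symmetric and alternating extensions: a gap for the order

`M/K` is a Galois extension of number fields whose Galois group `M ≃ₐ[K] M` is the symmetric or the
alternating group of degree `n ≥ 5`. `Irr G` is the set of irreducible complex characters of `G`.

`zetaOrder F s₀` is the order at `s₀` of the Dedekind zeta function of the number field `F`, and
`artinOrder χ s₀` the order at `s₀` of the Artin L-function `L(s, χ)` of the character `χ` of the Galois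
group of `M/K`: the Euler product for `Re s > 1` over the primes of `K` which are unramified in `M`
(`Pool.Agent.Q92.AR.artinL`), continued meromorphically to `ℂ`; the finitely many other Euler factors
have no zeros and poles for `Re s > 0`.

Nothing is assumed: the continuations exist by Artin's reciprocity law, Hecke's theorem and Brauer's
induction theorem, and the orders at `1/2` of the zeta functions are even by their functional
equation; these theorems are proved in the library `Pool.Agent.Q92.AR`.
-/

set_option autoImplicit false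

open Pool.Agent.H541R3.ART Equiv Pool.Agent.Q7.RA Pool.Agent.Q92.AR

/-- Let `A_n ≤ G ≤ S_n`, `n ≥ 5`, be the Galois group of `M/K`, and suppose that the order `r` of the
Dedekind zeta function of `M` at `s = 1/2` is less than `2 (2 ^ k - 1) ⌊n / 2 ^ k⌋` for some `k ≥ 2`. Then
(1) no `L(s, χ)`, `χ` irreducible, has a pole at `1/2`;
(2) `L(1/2, χ) ≠ 0` for all irreducible characters `χ` of `G` which are nontrivial on `A_n`;
(3) there is an extension `k₀` of `K` in `M` of degree at most two such that for every field `F`
between `K` and `M` the zeta functions of `F` and of `F ∩ k₀` have the same order at `1/2`. -/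
theorem Pool.Agent.Results.MP_347b49_nt.CentralGapSnAn.result
    (K M : Type) [Field K] [NumberField K] [Field M] [NumberField M] [Algebra K M] [IsGalois K M]
    (n k : ℕ) (hn : 5 ≤ n) (hk : 2 ≤ k) (G : Subgroup (Perm (Fin n)))
    (hG : alternatingGroup (Fin n) ≤ G) (e : (M ≃ₐ[K] M) ≃* G)
    (r : ℕ) (hr : zetaOrder M (1 / 2) = (r : WithTop ℤ))
    (hlt : r < 2 * ((2 ^ k - 1) * (n / 2 ^ k))) :
    (∀ χ ∈ Irr (M ≃ₐ[K] M), 0 ≤ artinOrder χ (1 / 2)) ∧
    (∀ χ ∈ Irr (M ≃ₐ[K] M),
      (∃ g, (e g : Perm (Fin n)) ∈ alternatingGroup (Fin n) ∧ χ g ≠ χ 1) →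
      artinOrder χ (1 / 2) = 0) ∧
    ∃ k₀ : IntermediateField K M, Module.finrank K k₀ ≤ 2 ∧
      ∀ F : IntermediateField K M,
        zetaOrder (F ⊓ k₀ : IntermediateField K M) (1 / 2) = zetaOrder F (1 / 2) := by
  classical
  have hC := continued (K := K) (M := M) half_pos' half_ne
  set B : ArtinData G (1 / 2 : ℂ) := (ArtinData.ofExtension hC).transport e with hB
  have hr' : meromorphicOrderAt (B.Lin ⊥ 1) (1 / 2 : ℂ) = (r : WithTop ℤ) := by
    rw [hB, transport_Lin_bot]
    exact (data_bot (K := K) (M := M) half_pos' half_ne).trans hr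
  obtain ⟨h1, h2, h3⟩ := Pool.Agent.Q7.CV.central_sym hn hk G hG B
    (fun H ψ hψ => lin_even_transport e hC H ψ hψ) hr' hlt
  have hL : ∀ χ : (M ≃ₐ[K] M) → ℂ, meromorphicOrderAt (B.L fun g => χ (e.symm g)) (1 / 2 : ℂ) =
      artinOrder χ (1 / 2) := by
    intro χ
    have e1 : B.L (fun g => χ (e.symm g)) = cont (artinL M χ) := by
      rw [hB, transport_L]
      simp only [MulEquiv.symm_apply_apply]
      rfl
    rw [e1]
    rfl
  refine ⟨fun χ hχ => ?_, ?_, ?_⟩
  · rw [← hL χ]
    exact h1 _ (irr_comp_symm e hχ)
  · rintro χ hχ ⟨g, hg, hne⟩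
    rw [← hL χ]
    exact h2 _ (irr_comp_symm e hχ) ⟨e g, hg, by simpa using hne⟩
  · set N : Subgroup (M ≃ₐ[K] M) :=
      ((alternatingGroup (Fin n)).subgroupOf G).comap e.toMonoidHom with hN
    obtain ⟨k₀, hk₀⟩ := exists_fixing N
    refine ⟨k₀, ?_, fun F => ?_⟩
    · rw [finrank_eq_index, hk₀, hN, Subgroup.index_comap_of_surjective _ e.surjective]
      have h4 : ((alternatingGroup (Fin n)).subgroupOf G).index ∣
          (alternatingGroup (Fin n)).index := Subgroup.relIndex_dvd_index_of_normal _ _
      have : Nontrivial (Fin n) := Fin.nontrivial_iff_two_le.2 (by omega)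
      rw [alternatingGroup.index_eq_two] at h4
      exact Nat.le_of_dvd two_pos h4
    · have h5 := h3 (F.fixingSubgroup.map e.toMonoidHom)
      have h6 : ∀ H : Subgroup G, meromorphicOrderAt (B.Lin H 1) (1 / 2 : ℂ) =
          meromorphicOrderAt ((data K M half_pos' half_ne).Lin (H.comap e.toMonoidHom) 1)
            (1 / 2 : ℂ) := fun H => rfl
      rw [h6, h6, ← Subgroup.comap_sup_eq e.toMonoidHom _ _ e.surjective,
        Subgroup.comap_map_eq_self_of_injective e.injective] at h5
      rw [← data_field half_pos' half_ne, ← data_field half_pos' half_ne, fixingSubgroup_inf, hk₀]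
      exact h5
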