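import Mathlib
import Pool.Agent.Q92.AR.All
import Pool.Agent.Q92.AR.Use
import Pool.Agent.Q290.AR.FSCore
import Pool.Agent.Q290.AR.Ord

/-!
# The Frobenius-Schur inequalities for the orders of Artin L-functions

`M/K` is a Galois extension of number fields with Galois group `M ≃ₐ[K] M`.

`Pool.Agent.H541R3.ART.Irr G` is the set of irreducible complex characters of the finite group `G`.
`Pool.Agent.Q92.AR.artinL M χ` is the Artin L-function of `χ` for `Re s > 1` (the Euler factors at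
the primes which ramify in `M` are left out, they have no zero or pole for `Re s > 0`), and
`Pool.Agent.Q92.AR.cont f` is the meromorphic continuation of a function on `Re s > 1`;
`NumberField.dedekindZeta M` is the zeta function of `M` (Mathlib).
`Pool.Agent.Q7.TZ.dual D χ` is the character `g ↦ D g * χ g⁻¹`, that is `D` times the conjugate
of `χ`.
-/

set_option autoImplicit false

open Pool.Agent.H541R3.ART Pool.Agent.Q7.TZ Pool.Agent.Q92.AR ComplexConjugate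

/-- Let `M/K` be a Galois extension of number fields and `s₀ ≠ 1` a complex number with
`Re s₀ > 0`. Let `n χ` be the order at `s₀` of the Artin L-function `L(s, χ, M/K)` and `r` the order
at `s₀` of the Dedekind zeta function of `M`.

(A) For every linear character `D` of the Galois group, with the twisted Frobenius-Schur
indicators `ν χ = |G|⁻¹ ∑ χ(g²) D(g)⁻¹ ∈ {1, 0, -1}` and `T = ∑ ν χ n χ`,
`∑ (n χ + n (D χ̄))² ≤ 2 r (r + T)` and `∑ (n χ - n (D χ̄))² ≤ 2 r (r - T)`. The sum of these two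
inequalities is the inequality `∑ (n χ)² ≤ r²` of Foote and Murty.

(B) Let `s₀` be real, for instance `s₀ = 1/2`, and let `ν χ` be the Frobenius-Schur indicator of `χ`.
Then `2 ∑ (n χ)² ≤ r (r + T)`, where `T = ∑ ν χ n χ ≤ r` is the sum of the orders of the orthogonal
characters minus that of the symplectic characters. Moreover, either `L(s, μ)` has a zero of order
`r` for a linear character `μ` with `μ² = 1` and all other `L(s, χ)` are finite and nonzero at `s₀`,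
or the following holds: `∑ n χ (n χ + ν χ) < r (r + 1)` if `r > 0`; and if `r ≥ 3` then
`∑ n χ (n χ - ν χ) < r (r - 1)`, so that `2 - r ≤ n χ ≤ r - 1` for orthogonal `χ`,
`1 - r ≤ n χ ≤ r - 2` for symplectic `χ`, `2 (n χ)² < r (r - 1)` for all other `χ`, and fewer than
`r (r - 1)` characters which are neither orthogonal nor symplectic have a zero or a pole at `s₀`. -/
theorem Pool.Agent.Results.MP_347b49_nt.FrobeniusSchurArtin.result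
    (K M : Type) [Field K] [NumberField K] [Field M] [NumberField M] [Algebra K M] [IsGalois K M]
    (s₀ : ℂ) (h0 : 0 < s₀.re) (h1 : s₀ ≠ 1) :
    ∃ (r : ℕ) (n : ((M ≃ₐ[K] M) → ℂ) → ℤ),
    meromorphicOrderAt (cont (NumberField.dedekindZeta M)) s₀ = ((r : ℕ) : WithTop ℤ) ∧
    (∀ χ ∈ Irr (M ≃ₐ[K] M),
      meromorphicOrderAt (cont (artinL M χ)) s₀ = ((n χ : ℤ) : WithTop ℤ)) ∧
    (∀ D : (M ≃ₐ[K] M) →* ℂˣ, ∃ ν : ((M ≃ₐ[K] M) → ℂ) → ℤ,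
      (∀ χ ∈ Irr (M ≃ₐ[K] M), dual D χ ∈ Irr (M ≃ₐ[K] M) ∧
        (∑ᶠ g, χ (g ^ 2) * (((D g)⁻¹ : ℂˣ) : ℂ) = ν χ * Nat.card (M ≃ₐ[K] M)) ∧
        (ν χ = 1 ∨ ν χ = 0 ∨ ν χ = -1) ∧ (ν χ = 0 ↔ dual D χ ≠ χ)) ∧
      ∑ᶠ χ ∈ Irr (M ≃ₐ[K] M), (n χ + n (dual D χ)) ^ 2
        ≤ 2 * r * (r + ∑ᶠ χ ∈ Irr (M ≃ₐ[K] M), ν χ * n χ) ∧
      ∑ᶠ χ ∈ Irr (M ≃ₐ[K] M), (n χ - n (dual D χ)) ^ 2
        ≤ 2 * r * (r - ∑ᶠ χ ∈ Irr (M ≃ₐ[K] M), ν χ * n χ)) ∧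
    (conj s₀ = s₀ → ∀ ν : ((M ≃ₐ[K] M) → ℂ) → ℤ,
      (∀ χ ∈ Irr (M ≃ₐ[K] M), ∑ᶠ g, χ (g ^ 2) = ν χ * Nat.card (M ≃ₐ[K] M)) →
      2 * ∑ᶠ χ ∈ Irr (M ≃ₐ[K] M), n χ ^ 2 ≤ r * (r + ∑ᶠ χ ∈ Irr (M ≃ₐ[K] M), ν χ * n χ) ∧
      ∑ᶠ χ ∈ Irr (M ≃ₐ[K] M), ν χ * n χ ≤ r ∧
      ((∃ μ : (M ≃ₐ[K] M) →* ℂˣ, μ * μ = 1 ∧ n (fun g => ((μ g : ℂˣ) : ℂ)) = r ∧
          ∀ χ ∈ Irr (M ≃ₐ[K] M), χ ≠ (fun g => ((μ g : ℂˣ) : ℂ)) → n χ = 0) ∨
        ((0 < r → ∑ᶠ χ ∈ Irr (M ≃ₐ[K] M), n χ * (n χ + ν χ) < r * (r + 1)) ∧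
          (3 ≤ r → ∑ᶠ χ ∈ Irr (M ≃ₐ[K] M), n χ * (n χ - ν χ) < r * (r - 1) ∧
            (∀ χ ∈ Irr (M ≃ₐ[K] M), (ν χ = 1 → 2 - r ≤ n χ ∧ n χ ≤ r - 1) ∧
              (ν χ = -1 → 1 - r ≤ n χ ∧ n χ ≤ r - 2) ∧
              (ν χ = 0 → 2 * n χ ^ 2 < r * (r - 1))) ∧
            {χ | χ ∈ Irr (M ≃ₐ[K] M) ∧ ν χ = 0 ∧ n χ ≠ 0}.ncard < r * (r - 1))))) := by
  have hC : Continued (K := K) M s₀ := continued h0 h1
  set A := ArtinData.ofExtension hC with hA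
  obtain ⟨r, hr⟩ := Pool.Agent.Q290.AR.exists_order A ⊥ 1
  have hn : ∀ χ ∈ Irr (M ≃ₐ[K] M),
      meromorphicOrderAt (A.L χ) s₀ = ((A.ord χ : ℤ) : WithTop ℤ) := fun χ hχ => (A.coe_ord hχ).symm
  obtain ⟨ha, hb⟩ := Pool.Agent.Q290.AR.fs_core (M ≃ₐ[K] M) s₀ A r hr A.ord hn
  exact ⟨r, A.ord, (lin_bot hC h0).symm.trans hr, hn, ha,
    fun hs => hb hs (reflects_ofExtension hC)⟩
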