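import Pool.Agent.Q253.LC.C6

set_option autoImplicit false

/-!
# Abelian fields: when is the joint law of the prime sums in the Frobenius classes invariant under the Galois group?

No hypothesis is assumed.  Let `F` be an abelian extension of `ℚ`, contained in the `q`-th cyclotomic field, and `H` the
subgroup of `(ℤ/q)ˣ` which fixes it.  The irreducible characters of `Gal(F/ℚ) = (ℤ/q)ˣ/H` are the Dirichlet characters
modulo `q` which are trivial on `H`; their Artin `L`-functions are the `L`-functions of the primitive characters, which have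
the same zeros in `0 < Re s < 1` as `L(s, χ)`.  All these characters are orthogonal or unitary.

For `a ∈ (ℤ/q)ˣ` and `x = e^u` put `E_a(u) = [F:ℚ] ∑_{n mod q ∈ aH} Λ(n) n^(-1/2) min(n/x, x/n) - (8/3) √x`.
-/

open Filter Topology Set Complex
open DirichletCharacter (LFunction completedLFunction)

namespace Pool.Agent.Results.MP_347b49_nt.GaloisInvariantRaces

variable {q : ℕ} [NeZero q]

open Classical in
/-- the irreducible characters of `Gal(F/ℚ)`: the Dirichlet characters modulo `q` which are trivial on `H` -/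
noncomputable def chars (H : Subgroup (ZMod q)ˣ) : Finset (DirichletCharacter ℂ q) :=
  Finset.univ.filter fun χ => ∀ u ∈ H, χ (u : ZMod q) = 1

/-- the Riemann hypothesis for their `L`-functions -/
def GRH (H : Subgroup (ZMod q)ˣ) : Prop :=
  ∀ χ ∈ chars H, ∀ s : ℂ, 1 / 2 < s.re → s.re < 1 → LFunction χ s ≠ 0

/-- statement 2 of the problem: `L(1/2, χ) ≠ 0` for the nontrivial characters -/
def Statement2 (H : Subgroup (ZMod q)ˣ) : Prop := ∀ χ ∈ chars H, χ ≠ 1 → LFunction χ (1 / 2) ≠ 0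

/-- statement 1 of the problem, the part on linear independence: the `γ > 0` with `L(1/2 + iγ, χ) = 0`, listed over all
pairs `(χ, γ)`, are linearly independent over `ℚ` -/
def Independent (H : Subgroup (ZMod q)ˣ) : Prop :=
  LinearIndependent ℚ (fun p : {p : DirichletCharacter ℂ q × ℝ //
    p.1 ∈ chars H ∧ 0 < p.2 ∧ LFunction p.1 (1 / 2 + (p.2 : ℂ) * I) = 0} => p.1.2)

/-- no relation `γ_1 + ... + γ_k = 0` between zeros `1/2 + iγ_j` of `L(s, χ_j)` (`γ_j` real, of any sign) with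
`χ_1 ... χ_k ≠ 1` -/
def NoRelation (H : Subgroup (ZMod q)ˣ) (k : ℕ) : Prop :=
  ∀ χ : Fin k → DirichletCharacter ℂ q, (∀ j, χ j ∈ chars H) → ∏ j, χ j ≠ 1 →
    ¬ ∃ γ : Fin k → ℝ, ∑ j, γ j = 0 ∧ ∀ j, LFunction (χ j) (1 / 2 + (γ j : ℂ) * I) = 0

/-- the `L`-functions of different characters have no common zero in the critical strip -/
def NoCommonZero (H : Subgroup (ZMod q)ˣ) : Prop :=
  ∀ χ ∈ chars H, ∀ ψ ∈ chars H, χ ≠ ψ → ∀ s : ℂ, 0 < s.re → s.re < 1 → ¬ (LFunction χ s = 0 ∧ LFunction ψ s = 0)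

open Classical in
/-- `E_a(u) = [F:ℚ] ∑_{n mod q ∈ aH} Λ(n) n^(-1/2) min(n/x, x/n) - (8/3) √x` for `x = e^u` -/
noncomputable def E (H : Subgroup (ZMod q)ˣ) (a : (ZMod q)ˣ) (u : ℝ) : ℝ :=
  (H.index : ℝ) * (∑' n : ℕ, if ∃ v ∈ H, ((a * v : (ZMod q)ˣ) : ZMod q) = (n : ZMod q) then
    ArithmeticFunction.vonMangoldt n * (Real.exp (-(Real.log n / 2)) * Real.exp (-|u - Real.log n|)) else 0) -
    8 / 3 * Real.exp (u / 2)

/-- the mean squares of the `E_a` are bounded -/
def Bounded (H : Subgroup (ZMod q)ˣ) : Prop :=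
  ∀ a : (ZMod q)ˣ, ∃ C : ℝ, ∀ᶠ U : ℝ in atTop, (1 / U) * ∫ u in (0 : ℝ)..U, E H a u ^ 2 ≤ C

/-- the mixed moments `(1/U) ∫_0^U ∏_j (-E_{a_j}(u)) du` of order `k` -/
noncomputable def M (H : Subgroup (ZMod q)ˣ) {k : ℕ} (a : Fin k → (ZMod q)ˣ) (U : ℝ) : ℝ :=
  (1 / U) * ∫ u in (0 : ℝ)..U, ∏ j, (-E H (a j) u)

/-- the mixed moments of order `k` are asymptotically invariant under the Galois group -/
def InvariantMoments (H : Subgroup (ZMod q)ˣ) (k : ℕ) : Prop :=
  ∀ (a : Fin k → (ZMod q)ˣ) (b : (ZMod q)ˣ), Tendsto (fun U => M H (fun j => b * a j) U - M H a U) atTop (𝓝 0)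

/-- the joint law of the `E_a` is asymptotically the same as that of the `E_{σ(a)}` -/
def SameLaw (H : Subgroup (ZMod q)ˣ) (σ : (ZMod q)ˣ → (ZMod q)ˣ) : Prop :=
  ∀ Φ : ((ZMod q)ˣ → ℝ) → ℝ, Continuous Φ → Tendsto (fun U : ℝ => (1 / U) * ∫ u in (0 : ℝ)..U,
    (Φ (fun a => E H (σ a) u) - Φ (fun a => E H a u))) atTop (𝓝 0)

/-- For every abelian field `F`, without hypothesis.  (1) The Riemann hypothesis for the `L`-functions of `F` is the
boundedness of the mean squares of the `E_a`.  (2) It holds and there are no relations with `χ_1 ... χ_k ≠ 1`, for any `k`,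
if and only if the mean squares are bounded and the joint law of the `E_a` is invariant under the Galois group.
(3) For one `k`: if and only if the mixed moments of order `k` are invariant.  (4) For `k = 1` the condition on the zeros is
statement 2 of the problem; for `k = 2` it says that different `L`-functions have no common zero.  (5) Statement 2 and the
linear independence exclude all relations with `χ_1 ... χ_k ≠ 1`.  (6) Under the Riemann hypothesis the law is always
invariant under `a ↦ a⁻¹`. -/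
theorem result (H : Subgroup (ZMod q)ˣ) :
    (GRH H ↔ Bounded H) ∧
    ((GRH H ∧ ∀ k : ℕ, NoRelation H k) ↔ (Bounded H ∧ ∀ b : (ZMod q)ˣ, SameLaw H (fun a => b * a))) ∧
    (∀ k : ℕ, (GRH H ∧ NoRelation H k) ↔ (Bounded H ∧ InvariantMoments H k)) ∧
    ((GRH H ∧ Statement2 H) ↔ (Bounded H ∧ InvariantMoments H 1)) ∧
    ((GRH H ∧ NoCommonZero H) ↔ (Bounded H ∧ InvariantMoments H 2)) ∧
    (Independent H → Statement2 H → ∀ k : ℕ, NoRelation H k) ∧
    (GRH H → SameLaw H (fun a => a⁻¹)) := by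
  have h1 : GRH H ↔ Bounded H := Pool.Agent.Q253.LC.BA_iff.symm
  have hk : ∀ k : ℕ, (GRH H ∧ NoRelation H k) ↔ (Bounded H ∧ InvariantMoments H k) := fun k =>
    Pool.Agent.Q253.LC.main_k k
  refine ⟨h1, ?_, hk, ?_, ?_, ?_, ?_⟩
  · have h := Pool.Agent.Q253.LC.main_law (H := H)
    constructor
    · intro h2
      obtain ⟨h3, h4⟩ := h.1 h2
      exact ⟨h3, fun b Φ hΦ => h4 Φ hΦ b⟩
    · rintro ⟨h3, h4⟩
      exact h.2 ⟨h3, fun Φ hΦ b => h4 b Φ hΦ⟩
  · rw [← hk 1]
    exact and_congr_right fun _ => (Pool.Agent.Q253.LC.NR_one (H := H)).symm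
  · rw [← hk 2]
    exact and_congr_right fun hG => (Pool.Agent.Q253.LC.NR_two (H := H) hG).symm
  · exact fun hL h0 k => Pool.Agent.Q253.LC.NR_of_LI (H := H) hL h0 k
  · exact fun hG Φ hΦ => Pool.Agent.Q253.LC.law_inv (H := H) hG hΦ

end Pool.Agent.Results.MP_347b49_nt.GaloisInvariantRaces
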