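import Mathlib
import Pool.Agent.Q92.AR.All
import Pool.Agent.Q92.AR.EvenL
import Pool.Agent.Q277.CR.Real

/-!
# Central values of Artin L-functions: a local criterion for nonvanishing

Let `M/K` be a Galois extension of number fields, for example with `K = ℚ`.

`Pool.Agent.Q92.AR.artinL M χ` is the Artin L-function of the class function `χ` of `Gal (M/K)` for
`Re s > 1`, the Euler product over the primes of `K` which are unramified in `M` (the finitely many
other Euler factors have no zero or pole for `Re s > 0`), and `Pool.Agent.Q92.AR.cont f` is the
meromorphic continuation of `f` from `Re s > 1` to the complex plane. `NumberField.dedekindZeta F` is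
the Dedekind zeta function. `meromorphicOrderAt f (1 / 2)` is the order of vanishing at `s = 1/2`.

`Pool.Agent.H541R3.ART.Irr G` is the set of irreducible complex characters of the finite group `G`.

`Pool.Agent.Y788.res G` is the intersection of the derived series of `G`; it is the smallest normal
subgroup `N` of `G` with solvable quotient, and it is perfect. For a nonsolvable almost simple group
it is the simple normal subgroup.

`Pool.Agent.Y788.V.RankGe p m (⊥ : Subgroup N)`: if `K` is a proper subgroup of a Sylow `p`-subgroup
`P` of `N` which is strongly closed in `P` with respect to `N` (all conjugates in `N` of elements of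
`K` which lie in `P` lie in `K`), then `P / K` has an elementary abelian subgroup `E / K` of order
`p ^ m`.

`Pool.Agent.Q277.CL.TrivC p r N`: let `σ` be a representation of degree `r` of a Sylow `p`-subgroup
`P` of `N` whose character takes the same value at elements of `P` which are conjugate in `N`, is
real valued and satisfies `Pool.Agent.Q7.CV.EvenQ`: for every linear character `ψ` with `ψ ^ 2 = 1` of
a subgroup `H` of `P` the multiplicity of `ψ` in the restriction to `H` is even; then `σ` is trivial.
-/

set_option autoImplicit false

open Pool.Agent.H541R3.ART Pool.Agent.Y788 Pool.Agent.Y788.V Pool.Agent.Q92.AR NumberField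

/-- Let `M/K` be a Galois extension of number fields with group `G`, let `N = res G` be the smallest
normal subgroup of `G` with solvable quotient, and let `r` be the order of the zeta function of `M` at
`s = 1/2`. Suppose that for every prime `p ≤ r` (only for `p = 2` if `r ≤ 4`) all quotients `P / K` of
the Sylow `p`-subgroups `P` of `N` by proper strongly closed subgroups `K` contain an elementary
abelian group of order `p ^ m` with `2 m > r`, or, more generally, that `N` satisfies `TrivC p r N`.
Then
(1) `L(s, χ, M/K)` is holomorphic and nonzero at `s = 1/2` for all irreducible characters `χ` of `G`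
which are nontrivial on `N`, whether orthogonal, unitary or symplectic (if `G` is perfect, for all
`χ ≠ 1`);
(2) no `L(s, χ, M/K)` has a pole at `1/2` if the irreducible characters of the solvable group `G / N`
are monomial;
(3) for every field `F` between `K` and `M` the zeta functions of `F` and of its intersection with
the fixed field of `N` have the same order at `1/2`. -/
theorem Pool.Agent.Results.MP_347b49_nt.LocalNonvanishing.result
    (K M : Type) [Field K] [NumberField K] [Field M] [NumberField M] [Algebra K M] [IsGalois K M]
    (r : ℕ) (hr : meromorphicOrderAt (cont (dedekindZeta M)) (1 / 2 : ℂ) = (r : WithTop ℤ))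
    (hloc : ∀ p : ℕ, p.Prime → p ≤ r → p = 2 ∨ 5 ≤ r →
      (∃ m : ℕ, r < 2 * m ∧ RankGe p m (⊥ : Subgroup (res (M ≃ₐ[K] M)))) ∨
        Pool.Agent.Q277.CL.TrivC p r (res (M ≃ₐ[K] M))) :
    (∀ χ ∈ Irr (M ≃ₐ[K] M), (∃ n ∈ res (M ≃ₐ[K] M), χ n ≠ χ 1) →
      meromorphicOrderAt (cont (artinL M χ)) (1 / 2 : ℂ) = 0) ∧
    ((∀ χ ∈ Irr (M ≃ₐ[K] M), (∀ n ∈ res (M ≃ₐ[K] M), χ n = χ 1) → IsMonomialChar χ) →
      ∀ χ ∈ Irr (M ≃ₐ[K] M), 0 ≤ meromorphicOrderAt (cont (artinL M χ)) (1 / 2 : ℂ)) ∧
    ∀ F : IntermediateField K M,
      meromorphicOrderAt (cont (dedekindZeta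
        (F ⊓ IntermediateField.fixedField (res (M ≃ₐ[K] M)) : IntermediateField K M))) (1 / 2 : ℂ) =
      meromorphicOrderAt (cont (dedekindZeta F)) (1 / 2 : ℂ) := by
  have hC : Continued (K := K) M (1 / 2 : ℂ) := continued (by norm_num) (by norm_num)
  refine Pool.Agent.Q277.CR.central_real K M hC (fun F => ?_) r hr hloc
  obtain ⟨m, hm⟩ := lin_even hC F.fixingSubgroup 1 (fun _ => mul_one 1)
  refine ⟨m, ?_⟩
  rw [← hm, ← Pool.Agent.Q277.CR.fixer_eq F]
  exact (lin_fixer (F := F) hC (by norm_num)).symm
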